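import Pool.Agent.Y661.PD.Stm

/-!
# PD-BOX: a box in the torus (helper259, for project PD of helper661)
-/

set_option autoImplicit false

namespace Pool.Agent.Y259.PD.BOX

open Finset Pool.Agent.Y661.PD

theorem card_small (L ρ : ℕ) [NeZero L] (h : ρ ≤ L) :
    (univ.filter (fun c : ZMod L => c.val < ρ)).card = ρ := by
  have h1 : (univ.filter (fun c : ZMod L => c.val < ρ)).card = (range ρ).card := by
    symm
    refine Finset.card_bij (fun i _ => (i : ZMod L)) ?_ ?_ ?_
    · intro i hi
      rw [Finset.mem_filter]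
      refine ⟨Finset.mem_univ _, ?_⟩
      have h2 := Finset.mem_range.1 hi
      rw [ZMod.val_natCast_of_lt (lt_of_lt_of_le h2 h)]
      exact h2
    · intro i hi j hj hij
      have h2 := lt_of_lt_of_le (Finset.mem_range.1 hi) h
      have h3 := lt_of_lt_of_le (Finset.mem_range.1 hj) h
      have h4 := congrArg ZMod.val hij
      rwa [ZMod.val_natCast_of_lt h2, ZMod.val_natCast_of_lt h3] at h4
    · intro c hc
      rw [Finset.mem_filter] at hc
      exact ⟨c.val, Finset.mem_range.2 hc.2, ZMod.natCast_zmod_val c⟩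
  rw [h1, Finset.card_range]

theorem diff_le (L ρ : ℕ) [NeZero L] (a b : ZMod L) (ha : a.val < ρ) (hb : b.val < ρ) :
    ((a - b).valMinAbs).natAbs ≤ ρ := by
  have h1 := ZMod.natAbs_min_of_le_div_two L ((a - b).valMinAbs) ((a.val : ℤ) - b.val) (by
    rw [ZMod.coe_valMinAbs]
    push_cast
    rw [ZMod.natCast_zmod_val, ZMod.natCast_zmod_val]) (ZMod.natAbs_valMinAbs_le _)
  omega

theorem main : Pool.Agent.Y661.PD.S_BOX := by
  intro d L _ ρ _ hρ
  refine ⟨Fintype.piFinset (fun _ : Fin d => univ.filter (fun c : ZMod L => c.val < ρ)), ?_, ?_⟩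
  · rw [Fintype.card_piFinset_const, card_small L ρ hρ]
  · intro x hx y hy
    rw [Fintype.mem_piFinset] at hx hy
    unfold tdist
    calc ∑ i, ((x i - y i).valMinAbs).natAbs ≤ ∑ _i : Fin d, ρ :=
          Finset.sum_le_sum fun i _ => diff_le L ρ (x i) (y i) (Finset.mem_filter.1 (hx i)).2
            (Finset.mem_filter.1 (hy i)).2
      _ = d * ρ := by rw [Finset.sum_const, Finset.card_univ, Fintype.card_fin, smul_eq_mul]

end Pool.Agent.Y259.PD.BOX
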